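import Pool.Agent.Lib_helper29.AF13
import Pool.Agent.AFC72.Prod

/-!
# MP_25c7a1_al: Fitting classes closed under products of abnormal subgroups

A Fitting class of finite soluble groups which contains every finite soluble group `G = AB` with
abnormal subgroups `A`, `B` in the class is a formation. The Fitting classes with this property are
exactly the classes of the `σ`-nilpotent soluble `π`-groups for a set `π` of primes and a partition
`σ` of the primes.
-/

namespace Pool.Agent.Results.MP_25c7a1_al.AbnormalProducts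

/-- `F` is a Fitting class of finite soluble groups. -/
structure FittingClass (F : (G : Type) → [Group G] → Prop) : Prop where
  /-- the members are finite soluble groups -/
  soluble : ∀ (G : Type) [Group G], F G → Finite G ∧ Group.IsSolvable G
  /-- closed under isomorphism -/
  iso : ∀ (G H : Type) [Group G] [Group H], Nonempty (G ≃* H) → F G → F H
  /-- not empty -/
  nonempty : ∃ (G : Type) (_ : Group G), F G
  /-- normal subgroups of members are members -/
  normal : ∀ (G : Type) [Group G] (N : Subgroup G), N.Normal → F G → F N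
  /-- the product of two normal subgroups which are members is a member -/
  product : ∀ (G : Type) [Group G] [Finite G] (N₁ N₂ : Subgroup G), N₁.Normal → N₂.Normal →
    F N₁ → F N₂ → F ↥(N₁ ⊔ N₂)

/-- `F` is a formation. -/
structure Formation (F : (G : Type) → [Group G] → Prop) : Prop where
  /-- factor groups of members are members -/
  quotient : ∀ (G : Type) [Group G] (N : Subgroup G) [N.Normal], F G → F (G ⧸ N)
  /-- if `G/N₁` and `G/N₂` are members then `G/(N₁ ∩ N₂)` is a member -/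
  residual : ∀ (G : Type) [Group G] [Finite G] (N₁ N₂ : Subgroup G) [N₁.Normal] [N₂.Normal],
    F (G ⧸ N₁) → F (G ⧸ N₂) → F (G ⧸ (N₁ ⊓ N₂))

/-- The subgroup `H` is abnormal: `g ∈ ⟨H, H^g⟩` for all `g`, where `H^g = g⁻¹ H g`. -/
def Abnormal {G : Type} [Group G] (H : Subgroup G) : Prop :=
  ∀ g : G, g ∈ Subgroup.closure ({x | x ∈ H} ∪ {x | ∃ h ∈ H, x = g⁻¹ * h * g})

/-- Property (AF): a finite soluble group `G = AB` is a member if `A` and `B` are abnormal subgroups
of `G` and members. -/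
def AF (F : (G : Type) → [Group G] → Prop) : Prop :=
  ∀ (G : Type) [Group G] [Finite G], Group.IsSolvable G → ∀ A B : Subgroup G,
    (∀ g : G, ∃ a ∈ A, ∃ b ∈ B, g = a * b) → Abnormal A → Abnormal B → F A → F B → F G

/-- `G` is a finite soluble group, all prime divisors of its order belong to `π`, and elements of
orders powers of `p` and `q` commute for all primes `p`, `q` in different classes of `σ`: `G` is
the direct product of its Hall subgroups for the classes of `σ`. -/
def SigmaNilpotent (π : Set ℕ) (σ : Setoid ℕ) (G : Type) [Group G] : Prop :=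
  Finite G ∧ Group.IsSolvable G ∧ (∀ p : ℕ, p.Prime → p ∣ Nat.card G → p ∈ π) ∧
    ∀ p q : ℕ, p.Prime → q.Prime → ¬ σ p q → ∀ x y : G, (∃ k : ℕ, x ^ p ^ k = 1) →
      (∃ k : ℕ, y ^ q ^ k = 1) → x * y = y * x

theorem isAF {F : (G : Type) → [Group G] → Prop} (h : FittingClass F) (hAF : AF F) :
    AFH29.IsAF F where
  fin := h.soluble
  iso := h.iso
  normal := h.normal
  sup := h.product
  af := by
    intro G _ _ hsol A B hA hB hFA hFB hAB
    have key : ∀ H : Subgroup G, (∀ g : G, g ∈ H ⊔ H.map (MulAut.conj g).toMonoidHom) →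
        Abnormal H := by
      intro H hH g
      have h1 := hH g⁻¹
      have h2 : H ⊔ H.map (MulAut.conj g⁻¹).toMonoidHom ≤
          Subgroup.closure ({x | x ∈ H} ∪ {x | ∃ h ∈ H, x = g⁻¹ * h * g}) := by
        refine sup_le (fun x hx => Subgroup.subset_closure (Or.inl hx)) ?_
        rintro _ ⟨x, hx, rfl⟩
        refine Subgroup.subset_closure (Or.inr ⟨x, hx, ?_⟩)
        simp
      exact (Subgroup.inv_mem_iff _).1 (h2 h1)
    refine hAF G hsol A B (fun g => ?_) (key A hA) (key B hB) hFA hFB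
    obtain ⟨a, ha, b, hb, hab⟩ := hAB g
    exact ⟨a, ha, b, hb, hab.symm⟩

/-- The primes of the class. -/
def primes (F : (G : Type) → [Group G] → Prop) : Set ℕ := {p | p.Prime ∧ AFH29.Chr F p}

/-- The partition. -/
def rel {F : (G : Type) → [Group G] → Prop} (hF : AFH29.IsAF F) : Setoid ℕ where
  r p q := p = q ∨ p ∈ primes F ∧ q ∈ primes F ∧ AFH29.Star F p q
  iseqv := by
    have symm : ∀ {p q : ℕ}, p ≠ q → p ∈ primes F → q ∈ primes F → AFH29.Star F p q →
        AFH29.Star F q p := by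
      intro p q hpq hp hq h
      have : Fact p.Prime := ⟨hp.1⟩
      have : Fact q.Prime := ⟨hq.1⟩
      exact hF.star_symm hpq hp.2 hq.2 h
    refine ⟨fun p => Or.inl rfl, ?_, ?_⟩
    · rintro p q (rfl | ⟨hp, hq, h⟩)
      · exact Or.inl rfl
      · by_cases hpq : p = q
        · exact Or.inl hpq.symm
        · exact Or.inr ⟨hq, hp, symm hpq hp hq h⟩
    · rintro p q r (rfl | ⟨hp, hq, h⟩)
      · exact id
      · rintro (rfl | ⟨_, hr, h'⟩)
        · exact Or.inr ⟨hp, hq, h⟩
        · by_cases hpr : p = r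
          · exact Or.inl hpr
          · by_cases hqr : q = r
            · subst hqr
              exact Or.inr ⟨hp, hq, h⟩
            · have : Fact p.Prime := ⟨hp.1⟩
              have : Fact q.Prime := ⟨hq.1⟩
              have : Fact r.Prime := ⟨hr.1⟩
              exact Or.inr ⟨hp, hr, hF.star_trans hpr hqr hp.2 hr.2 (symm hqr hq hr h') h⟩

theorem mem_iff {F : (G : Type) → [Group G] → Prop} (hF : AFH29.IsAF F)
    (hne : ∃ (G : Type) (_ : Group G), F G) (G : Type) [Group G] :
    F G ↔ AFH29.Sig F G := by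
  obtain ⟨G₀, _, hG₀⟩ := hne
  have htriv := fun (H : Type) [Group H] [Subsingleton H] => hF.triv hG₀ H
  exact ⟨fun h => hF.mem_sig htriv _ h rfl, fun h => hF.sig_mem htriv _ h rfl⟩

theorem sig_iff {F : (G : Type) → [Group G] → Prop} (hF : AFH29.IsAF F) (G : Type) [Group G] :
    AFH29.Sig F G ↔ SigmaNilpotent (primes F) (rel hF) G := by
  constructor
  · rintro ⟨h1, h2, h3, h4⟩
    refine ⟨h1, h2, fun p hp hpG => ⟨hp, h3 p hp hpG⟩, ?_⟩
    intro p q hp hq hpq x y hx hy
    have hpF : Fact p.Prime := ⟨hp⟩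
    have hqF : Fact q.Prime := ⟨hq⟩
    by_cases hpG : p ∣ Nat.card G
    · by_cases hqG : q ∣ Nat.card G
      · refine h4 p q hp hq (fun h => hpq (Or.inl h)) (fun h => hpq (Or.inr ?_)) x y hx hy
        exact ⟨⟨hp, h3 p hp hpG⟩, ⟨hq, h3 q hq hqG⟩, h⟩
      · have : y = 1 := AFH29.PEl.eq_one_of_not_dvd (p := q) hy hqG
        rw [this, mul_one, one_mul]
    · have : x = 1 := AFH29.PEl.eq_one_of_not_dvd (p := p) hx hpG
      rw [this, mul_one, one_mul]
  · rintro ⟨h1, h2, h3, h4⟩
    refine ⟨h1, h2, fun p hp hpG => (h3 p hp hpG).2, ?_⟩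
    intro p q hp hq hpq hs x y hx hy
    refine h4 p q hp hq ?_ x y hx hy
    rintro (h | ⟨_, _, h⟩)
    · exact hpq h
    · exact hs h

theorem forward (F : (G : Type) → [Group G] → Prop) (hF : FittingClass F) (hAF : AF F) :
    Formation F ∧ ∃ (π : Set ℕ) (σ : Setoid ℕ), (∀ p ∈ π, p.Prime) ∧
      ∀ (G : Type) [Group G], F G ↔ SigmaNilpotent π σ G := by
  have h := isAF hF hAF
  refine ⟨⟨?_, ?_⟩, primes F, rel h, fun p hp => hp.1, fun G _ => ?_⟩
  · intro G _ N _ hG
    exact h.formation.1 G N hG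
  · intro G _ _ N₁ N₂ _ _ h1 h2
    rw [mem_iff h hF.nonempty] at h1 h2 ⊢
    refine AFH29.Sig.subdirect
      (QuotientGroup.map (N₁ ⊓ N₂) N₁ (MonoidHom.id G) (fun x hx => hx.1))
      (QuotientGroup.map (N₁ ⊓ N₂) N₂ (MonoidHom.id G) (fun x hx => hx.2)) ?_ h1 h2
    intro x hx hy
    obtain ⟨g, rfl⟩ := QuotientGroup.mk_surjective x
    have e1 : g ∈ N₁ := (QuotientGroup.eq_one_iff g).1 hx
    have e2 : g ∈ N₂ := (QuotientGroup.eq_one_iff g).1 hy
    exact (QuotientGroup.eq_one_iff g).2 ⟨e1, e2⟩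
  · rw [mem_iff h hF.nonempty, sig_iff h]

theorem sn_fitting (π : Set ℕ) (σ : Setoid ℕ) : FittingClass (SigmaNilpotent π σ) where
  soluble G _ h := ⟨h.1, h.2.1⟩
  iso := by
    rintro G H _ _ ⟨e⟩ ⟨h1, h2, h3, h4⟩
    have h1' : Finite H := Finite.of_equiv G e.toEquiv
    refine ⟨h1', Group.isSolvable_of_surjective (f := e.toMonoidHom) e.surjective, ?_, ?_⟩
    · intro p hp hd
      rw [← Nat.card_congr e.toEquiv] at hd
      exact h3 p hp hd
    · exact AFC72.Cm.of_injective (σ := σ) e.symm.toMonoidHom e.symm.injective h4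
  nonempty := by
    refine ⟨PUnit, inferInstance, inferInstance, inferInstance, ?_, ?_⟩
    · intro p hp hd
      rw [Nat.card_unique] at hd
      exact absurd (Nat.dvd_one.1 hd) hp.one_lt.ne'
    · intro _ _ _ _ _ x y _ _
      exact Subsingleton.elim _ _
  normal := by
    rintro G _ N _ ⟨h1, h2, h3, h4⟩
    refine ⟨inferInstance, inferInstance, fun p hp hd => h3 p hp (hd.trans N.card_subgroup_dvd_card), ?_⟩
    exact AFC72.Cm.of_injective (σ := σ) N.subtype N.subtype_injective h4
  product := by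
    rintro G _ _ N₁ N₂ hn1 hn2 ⟨-, a2, a3, a4⟩ ⟨-, b2, b3, b4⟩
    have hM1 : (N₁.subgroupOf (N₁ ⊔ N₂)).Normal := inferInstance
    have hM2 : (N₂.subgroupOf (N₁ ⊔ N₂)).Normal := inferInstance
    have htop : N₁.subgroupOf (N₁ ⊔ N₂) ⊔ N₂.subgroupOf (N₁ ⊔ N₂) = ⊤ := by
      rw [← Subgroup.subgroupOf_sup le_sup_left le_sup_right, Subgroup.subgroupOf_self]
    have c1 : AFC72.Cm σ (N₁.subgroupOf (N₁ ⊔ N₂)) :=
      AFC72.Cm.of_injective (σ := σ)
        (Subgroup.subgroupOfEquivOfLe (le_sup_left : N₁ ≤ N₁ ⊔ N₂)).toMonoidHom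
        (Subgroup.subgroupOfEquivOfLe (le_sup_left : N₁ ≤ N₁ ⊔ N₂)).injective a4
    have c2 : AFC72.Cm σ (N₂.subgroupOf (N₁ ⊔ N₂)) :=
      AFC72.Cm.of_injective (σ := σ)
        (Subgroup.subgroupOfEquivOfLe (le_sup_right : N₂ ≤ N₁ ⊔ N₂)).toMonoidHom
        (Subgroup.subgroupOfEquivOfLe (le_sup_right : N₂ ≤ N₁ ⊔ N₂)).injective b4
    refine ⟨inferInstance, ?_, ?_, AFC72.cm_prod hM1 hM2 htop c1 c2⟩
    · have hs : Function.Surjective ((QuotientGroup.mk' (N₂.subgroupOf (N₁ ⊔ N₂))).comp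
          (Subgroup.inclusion (le_sup_left : N₁ ≤ N₁ ⊔ N₂))) := by
        intro x
        obtain ⟨g, rfl⟩ := QuotientGroup.mk_surjective x
        have hg : g ∈ N₁.subgroupOf (N₁ ⊔ N₂) ⊔ N₂.subgroupOf (N₁ ⊔ N₂) := by
          rw [htop]; trivial
        obtain ⟨a, ha, b, hb, rfl⟩ := Subgroup.mem_sup_of_normal_right.1 hg
        refine ⟨⟨(a : G), ha⟩, ?_⟩
        exact (QuotientGroup.mk_mul_of_mem a hb).symm
      have h1 : Group.IsSolvable (↥(N₁ ⊔ N₂) ⧸ N₂.subgroupOf (N₁ ⊔ N₂)) :=
        Group.isSolvable_of_surjective hs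
      refine Group.isSolvable_of_ker_le_range
        (Subgroup.inclusion (le_sup_right : N₂ ≤ N₁ ⊔ N₂))
        (QuotientGroup.mk' (N₂.subgroupOf (N₁ ⊔ N₂))) ?_
      rw [QuotientGroup.ker_mk']
      intro x hx
      exact ⟨⟨(x : G), hx⟩, rfl⟩
    · intro p hp hd
      rcases AFC72.dvd_card_sup hn2 hp hd with h | h
      · exact a3 p hp h
      · exact b3 p hp h

theorem abnormal_full {G : Type} [Group G] {A : Subgroup G} (h : Abnormal A) : AFC72.Full A := by
  intro K hK hAK
  rw [eq_top_iff]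
  intro g _
  have h1 : Subgroup.closure ({x | x ∈ A} ∪ {x | ∃ h ∈ A, x = g⁻¹ * h * g}) ≤ K := by
    rw [Subgroup.closure_le]
    rintro x (hx | ⟨a, ha, rfl⟩)
    · exact hAK hx
    · have := hK.conj_mem a (hAK ha) g⁻¹
      rwa [inv_inv] at this
  exact h1 (h g)

theorem sn_af (π : Set ℕ) (σ : Setoid ℕ) : AF (SigmaNilpotent π σ) := by
  rintro G _ _ hsol A B hAB hA hB ⟨-, -, a3, a4⟩ ⟨-, -, b3, b4⟩
  refine ⟨inferInstance, hsol, ?_, ?_⟩
  · intro p hp hd
    rcases AFC72.dvd_card_fac hAB hp hd with h | h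
    · exact a3 p hp h
    · exact b3 p hp h
  · exact AFC72.cm_of_factor (σ := σ) _ G A B rfl hAB a4 b4 (abnormal_full hA) (abnormal_full hB)

/-- Every Fitting class of finite soluble groups with property (AF) is a formation, and the Fitting
classes with property (AF) are exactly the classes of the `σ`-nilpotent soluble `π`-groups for the
sets `π` of primes and the equivalence relations `σ`. -/
theorem result (F : (G : Type) → [Group G] → Prop) :
    (FittingClass F ∧ AF F → Formation F) ∧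
    (FittingClass F ∧ AF F ↔ ∃ (π : Set ℕ) (σ : Setoid ℕ), (∀ p ∈ π, p.Prime) ∧
      ∀ (G : Type) [Group G], F G ↔ SigmaNilpotent π σ G) := by
  refine ⟨fun h => (forward F h.1 h.2).1, fun h => (forward F h.1 h.2).2, ?_⟩
  rintro ⟨π, σ, -, h⟩
  have hF : F = SigmaNilpotent π σ := by
    funext G inst
    exact propext (h G)
  subst hF
  exact ⟨sn_fitting π σ, sn_af π σ⟩

end Pool.Agent.Results.MP_25c7a1_al.AbnormalProducts
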